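import Mathlib

namespace Pool.Agent.Results.MP_f51a11_co.ProjectedDowling

open Set

/-! ### The matroid of a finite family of vectors -/

section VectorMatroid

variable {ι : Type} (F : Type) [Field F] {W : Type} [AddCommGroup W] [Module F W]

theorem finrank_span_image_eq_ncard [Finite ι] (v : ι → W) (K : Set ι) (hK : LinearIndepOn F v K) :
    Module.finrank F (Submodule.span F (v '' K)) = K.ncard := by
  have : Fintype K := Fintype.ofFinite K
  have h := finrank_span_eq_card (R := F) (b := fun x : K => v x) hK
  rw [← Nat.card_eq_fintype_card, Nat.card_coe_set_eq] at h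
  rw [← h, Set.image_eq_range]

/-- The matroid on a finite index type in which a set is independent when the corresponding
vectors are linearly independent. -/
noncomputable def vectorMatroid [Finite ι] (v : ι → W) : Matroid ι :=
  (IndepMatroid.ofFinite (E := Set.univ) Set.finite_univ (fun I => LinearIndepOn F v I)
    (linearIndepOn_empty F v)
    (fun _ _ hJ hIJ => hJ.mono hIJ)
    (by
      intro I J hI hJ hlt
      by_contra hcon
      push Not at hcon
      have hspan : Submodule.span F (v '' J) ≤ Submodule.span F (v '' I) := by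
        rw [Submodule.span_le]
        rintro _ ⟨e, heJ, rfl⟩
        by_cases heI : e ∈ I
        · exact Submodule.subset_span ⟨e, heI, rfl⟩
        · by_contra hn
          exact hcon e heJ heI (hI.insert hn)
      have hfI : (v '' I).Finite := Set.toFinite _
      have : FiniteDimensional F (Submodule.span F (v '' I)) :=
        FiniteDimensional.span_of_finite F hfI
      have h1 : Module.finrank F (Submodule.span F (v '' J))
          ≤ Module.finrank F (Submodule.span F (v '' I)) :=
        Submodule.finrank_mono hspan
      rw [finrank_span_image_eq_ncard F v I hI, finrank_span_image_eq_ncard F v J hJ] at h1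
      omega)
    (fun I _ => Set.subset_univ I)).matroid

theorem vectorMatroid_indep [Finite ι] (v : ι → W) (I : Set ι) :
    (vectorMatroid F v).Indep I ↔ LinearIndepOn F v I := by
  simp [vectorMatroid]

theorem vectorMatroid_ground [Finite ι] (v : ι → W) : (vectorMatroid F v).E = Set.univ := by
  simp [vectorMatroid]

end VectorMatroid

/-! ### Symbolic elimination -/

/-- symbols: zero vector, unit vector of a vertex, or an edge vector
`e_x - ε γ^t e_y` -/
inductive Sym (U C : Type) where
  | zero : Sym U C
  | joint (x : U) : Sym U C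
  | edge (x y : U) (c : C) (t : Bool) : Sym U C

section Symbols

variable {U C : Type} [DecidableEq U] [DecidableEq C] [CommGroup C] (s : U)

/-- well formed symbols with respect to the special vertex `s` -/
def Sym.Good (s : U) : Sym U C → Prop
  | .zero => True
  | .joint _ => True
  | .edge x y _ t => x ≠ y ∧ x ≠ s ∧ (t = true → y = s)

/-- symbolic contraction of `f` by `e` -/
def contr : Sym U C → Sym U C → Sym U C
  | .zero, f => f
  | .joint _, .zero => .zero
  | .joint z, .joint z' => if z' = z then .zero else .joint z'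
  | .joint z, .edge x' y' c' t' =>
      if x' = z then .joint y' else if y' = z then .joint x' else .edge x' y' c' t'
  | .edge _ _ _ _, .zero => .zero
  | .edge x y _ _, .joint z => if z = x then .joint y else .joint z
  | .edge x y c t, .edge x' y' c' t' =>
      if x' = x then
        if y = y' then (if c = c' ∧ t = t' then .zero else .joint y)
        else if y = s then .edge y' y (c * c'⁻¹) t
        else .edge y y' (c⁻¹ * c') t'
      else if y' = x then
        if y = x' then (if c' * c = 1 then .zero else .joint x')
        else .edge x' y (c' * c) t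
      else .edge x' y' c' t'

theorem contr_good (e f : Sym U C) (he : e.Good s) (hf : f.Good s) : (contr s e f).Good s := by
  cases e with
  | zero => simpa [contr] using hf
  | joint z =>
    cases f with
    | zero => simp [contr, Sym.Good]
    | joint z' => by_cases h : z' = z <;> simp [contr, h, Sym.Good]
    | edge x' y' c' t' =>
      simp only [contr]
      split_ifs
      · trivial
      · trivial
      · exact hf
  | edge x y c t =>
    obtain ⟨h1, h2, h3⟩ := he
    cases f with
    | zero => simp [contr, Sym.Good]
    | joint z' => by_cases h : z' = x <;> simp [contr, h, Sym.Good]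
    | edge x' y' c' t' =>
      obtain ⟨h1', h2', h3'⟩ := hf
      simp only [contr]
      split_ifs with ha hb hc hd he' hf' hg
      · trivial
      · trivial
      · refine ⟨fun h => hb h.symm, ?_, fun _ => hd⟩
        rintro rfl; exact hb hd
      · refine ⟨hb, hd, h3'⟩
      · trivial
      · trivial
      · refine ⟨fun h => hf' h.symm, h2', h3⟩
      · exact ⟨h1', h2', h3'⟩

variable (F : Type) [Field F] (φ : C →* Fˣ) (γ : Fˣ)

/-- the coefficient -/
def coef (c : C) (t : Bool) : F := ((φ c : Fˣ) : F) * (if t then (γ : F) else 1)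

/-- realization of a symbol as a vector -/
def realize : Sym U C → (U → F)
  | .zero => 0
  | .joint x => Pi.single x 1
  | .edge x y c t => Pi.single x 1 - coef F φ γ c t • Pi.single y 1


/-- pivot vertex of a symbol -/
def pivot : Sym U C → U
  | .zero => s
  | .joint x => x
  | .edge x _ _ _ => x

variable {F}

omit [DecidableEq C] in
theorem coef_ne_zero (c : C) (t : Bool) : coef F φ γ c t ≠ 0 := by
  unfold coef
  split_ifs
  · exact mul_ne_zero (Units.ne_zero _) (Units.ne_zero _)
  · exact mul_ne_zero (Units.ne_zero _) one_ne_zero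

omit [DecidableEq C] in
theorem coef_inj (hφ : Function.Injective φ) (hγ : ∀ c, φ c ≠ γ) {c c' : C} {t t' : Bool}
    (h : coef F φ γ c t = coef F φ γ c' t') : c = c' ∧ t = t' := by
  unfold coef at h
  cases t <;> cases t' <;> simp only [Bool.false_eq_true, if_true, if_false, mul_one,
    ← Units.val_mul, Units.val_inj] at h
  · exact ⟨hφ h, rfl⟩
  · exfalso
    apply hγ (c'⁻¹ * c)
    rw [map_mul, h, map_inv, inv_mul_cancel_left]
  · exfalso
    apply hγ (c⁻¹ * c')
    rw [map_mul, ← h, map_inv, inv_mul_cancel_left]
  · exact ⟨hφ (mul_right_cancel h), rfl⟩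

omit [DecidableEq C] in
theorem coef_false (c : C) : coef F φ γ c false = ((φ c : Fˣ) : F) := by simp [coef]

theorem realize_contr (hφ : Function.Injective φ) (hγ : ∀ c, φ c ≠ γ)
    (e f : Sym U C) (he : e.Good s) (hf : f.Good s) (he0 : e ≠ .zero) :
    ∃ a : F, a ≠ 0 ∧ realize F φ γ f - (realize F φ γ f) (pivot s e) • realize F φ γ e
      = a • realize F φ γ (contr s e f) := by
  cases e with
  | zero => exact absurd rfl he0
  | joint z =>
    cases f with
    | zero => exact ⟨1, one_ne_zero, by simp [contr, realize]⟩
    | joint z' =>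
      refine ⟨1, one_ne_zero, ?_⟩
      by_cases h : z' = z
      · subst h; simp [contr, realize, pivot]
      · have : (Pi.single z' (1 : F) : U → F) z = 0 := by
          rw [Pi.single_apply, if_neg (fun h' => h h'.symm)]
        simp [contr, realize, pivot, h]
    | edge x' y' c' t' =>
      obtain ⟨h1', h2', h3'⟩ := hf
      simp only [contr, pivot]
      split_ifs with ha hb
      · subst ha
        refine ⟨- coef F φ γ c' t', neg_ne_zero.2 (coef_ne_zero φ γ c' t'), ?_⟩
        simp [realize, h1']
      · subst hb
        refine ⟨1, one_ne_zero, ?_⟩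
        have : (Pi.single x' (1 : F) : U → F) y' = 0 := by
          rw [Pi.single_apply, if_neg (fun h' => ha h'.symm)]
        simp [realize, this]
      · refine ⟨1, one_ne_zero, ?_⟩
        have h5 : (Pi.single x' (1 : F) : U → F) z = 0 := by
          rw [Pi.single_apply, if_neg (fun h' => ha h'.symm)]
        have h6 : (Pi.single y' (1 : F) : U → F) z = 0 := by
          rw [Pi.single_apply, if_neg (fun h' => hb h'.symm)]
        simp [realize, h5, h6]
  | edge x y c t =>
    obtain ⟨h1, h2, h3⟩ := he
    cases f with
    | zero => exact ⟨1, one_ne_zero, by simp [contr, realize]⟩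
    | joint z =>
      simp only [contr, pivot]
      split_ifs with ha
      · subst ha
        refine ⟨coef F φ γ c t, coef_ne_zero φ γ c t, ?_⟩
        simp [realize]
      · refine ⟨1, one_ne_zero, ?_⟩
        have h5 : (Pi.single z (1 : F) : U → F) x = 0 := by
          rw [Pi.single_apply, if_neg (fun h' => ha h'.symm)]
        simp [realize, h5]
    | edge x' y' c' t' =>
      obtain ⟨h1', h2', h3'⟩ := hf
      simp only [contr, pivot]
      split_ifs with ha hb hc hd he' hf' hg
      · -- x' = x, y = y', equal gains
        subst ha; subst hb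
        obtain ⟨rfl, rfl⟩ := hc
        refine ⟨1, one_ne_zero, ?_⟩
        simp [realize, h1]
      · subst ha; subst hb
        refine ⟨coef F φ γ c t - coef F φ γ c' t', ?_, ?_⟩
        · intro h0
          exact hc (coef_inj φ γ hφ hγ (sub_eq_zero.1 h0))
        · simp [realize, h1]
          module
      · subst ha
        have ht' : t' = false := by
          cases t' with
          | false => rfl
          | true => exact absurd ((h3' rfl).trans hd.symm).symm hb
        subst ht'
        refine ⟨- coef F φ γ c' false, neg_ne_zero.2 (coef_ne_zero φ γ c' false), ?_⟩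
        have h7 : coef F φ γ c' false * coef F φ γ (c * c'⁻¹) t = coef F φ γ c t := by
          simp only [coef, map_mul, map_inv, Units.val_mul, Bool.false_eq_true, if_false, mul_one]
          have : ((φ c' : Fˣ) : F) * (((φ c')⁻¹ : Fˣ) : F) = 1 := by simp
          calc ((φ c' : Fˣ) : F) * (((φ c : Fˣ) : F) * (((φ c')⁻¹ : Fˣ) : F) * (if t = true then (γ : F) else 1))
              = (((φ c' : Fˣ) : F) * (((φ c')⁻¹ : Fˣ) : F)) * (((φ c : Fˣ) : F) * (if t = true then (γ : F) else 1)) := by ring
            _ = _ := by rw [this, one_mul]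
        have h8 : (Pi.single y' (1 : F) : U → F) x' = 0 := by
          rw [Pi.single_apply, if_neg h1']
        simp only [realize, Pi.sub_apply, Pi.smul_apply, h8, Pi.single_eq_same, smul_eq_mul,
          mul_zero, sub_zero, one_smul]
        rw [smul_sub, smul_smul, neg_mul, h7]
        module
      · subst ha
        have ht : t = false := by
          cases t with
          | false => rfl
          | true => exact absurd (h3 rfl) hd
        subst ht
        refine ⟨coef F φ γ c false, coef_ne_zero φ γ c false, ?_⟩
        have h7 : coef F φ γ c false * coef F φ γ (c⁻¹ * c') t' = coef F φ γ c' t' := by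
          simp only [coef, map_mul, map_inv, Units.val_mul, Bool.false_eq_true, if_false, mul_one]
          have : ((φ c : Fˣ) : F) * (((φ c)⁻¹ : Fˣ) : F) = 1 := by simp
          calc ((φ c : Fˣ) : F) * ((((φ c)⁻¹ : Fˣ) : F) * ((φ c' : Fˣ) : F) * (if t' = true then (γ : F) else 1))
              = (((φ c : Fˣ) : F) * (((φ c)⁻¹ : Fˣ) : F)) * (((φ c' : Fˣ) : F) * (if t' = true then (γ : F) else 1)) := by ring
            _ = _ := by rw [this, one_mul]
        have h8 : (Pi.single y' (1 : F) : U → F) x' = 0 := by
          rw [Pi.single_apply, if_neg h1']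
        simp only [realize, Pi.sub_apply, Pi.smul_apply, h8, Pi.single_eq_same, smul_eq_mul,
          mul_zero, sub_zero, one_smul]
        rw [smul_sub, smul_smul, h7]
        module
      · -- y' = x, y = x', product one
        subst he'; subst hf'
        have ht' : t' = false := by
          cases t' with
          | false => rfl
          | true => exact absurd (h3' rfl) h2
        have ht : t = false := by
          cases t with
          | false => rfl
          | true => exact absurd (h3 rfl) h2'
        subst ht; subst ht'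
        refine ⟨1, one_ne_zero, ?_⟩
        have h8 : (Pi.single y (1 : F) : U → F) y' = 0 := by
          rw [Pi.single_apply, if_neg h1]
        have h9 : coef F φ γ c' false * coef F φ γ c false = 1 := by
          rw [coef_false, coef_false, ← Units.val_mul, ← map_mul, hg, map_one, Units.val_one]
        have h10 : (1 : F) - coef F φ γ c' false * coef F φ γ c false = 0 := by rw [h9, sub_self]
        have h11 : realize F φ γ (Sym.edge y y' c' false)
            - (realize F φ γ (Sym.edge y y' c' false)) y' • realize F φ γ (Sym.edge y' y c false)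
            = ((1 : F) - coef F φ γ c' false * coef F φ γ c false) • Pi.single y 1 := by
          simp only [realize, Pi.sub_apply, Pi.smul_apply, h8, Pi.single_eq_same, smul_eq_mul,
            mul_one, zero_sub, neg_smul, smul_sub, smul_smul]
          module
        rw [h11, h10]
        simp [realize]
      · subst he'; subst hf'
        have ht' : t' = false := by
          cases t' with
          | false => rfl
          | true => exact absurd (h3' rfl) h2
        have ht : t = false := by
          cases t with
          | false => rfl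
          | true => exact absurd (h3 rfl) h2'
        subst ht; subst ht'
        have h9 : coef F φ γ c' false * coef F φ γ c false = coef F φ γ (c' * c) false := by
          rw [coef_false, coef_false, coef_false, ← Units.val_mul, ← map_mul]
        have h10 : coef F φ γ (1 : C) false = 1 := by
          rw [coef_false, map_one, Units.val_one]
        refine ⟨1 - coef F φ γ c' false * coef F φ γ c false, ?_, ?_⟩
        · intro h0
          rw [h9, ← h10] at h0
          exact hg (coef_inj φ γ hφ hγ (sub_eq_zero.1 h0)).1.symm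
        · have h8 : (Pi.single y (1 : F) : U → F) y' = 0 := by
            rw [Pi.single_apply, if_neg h1]
          simp only [realize, Pi.sub_apply, Pi.smul_apply, h8, Pi.single_eq_same, smul_eq_mul,
            mul_one, zero_sub, neg_smul, smul_sub, smul_smul]
          module
      · subst he'
        have ht' : t' = false := by
          cases t' with
          | false => rfl
          | true => exact absurd (h3' rfl) h2
        subst ht'
        refine ⟨1, one_ne_zero, ?_⟩
        have h9 : coef F φ γ c' false * coef F φ γ c t = coef F φ γ (c' * c) t := by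
          simp only [coef, map_mul, Units.val_mul, Bool.false_eq_true, if_false, mul_one]
          ring
        have h8 : (Pi.single x' (1 : F) : U → F) y' = 0 := by
          rw [Pi.single_apply, if_neg (fun h => h1' h.symm)]
        simp only [realize, Pi.sub_apply, Pi.smul_apply, h8, Pi.single_eq_same, smul_eq_mul,
          mul_one, zero_sub, neg_smul, smul_sub, smul_smul, ← h9]
        module
      · refine ⟨1, one_ne_zero, ?_⟩
        have h5 : (Pi.single x' (1 : F) : U → F) x = 0 := by
          rw [Pi.single_apply, if_neg (fun h' => ha h'.symm)]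
        have h6 : (Pi.single y' (1 : F) : U → F) x = 0 := by
          rw [Pi.single_apply, if_neg (fun h' => he' h'.symm)]
        simp [realize, h5, h6]


omit [DecidableEq U] in
/-- linear independence of a family starting with `v` reduces to the family projected along `v` -/
theorem linearIndependent_cons_iff {k : ℕ} (x : U) (v : U → F) (hv : v x = 1)
    (w : Fin k → (U → F)) :
    LinearIndependent F (Fin.cons v w : Fin (k + 1) → (U → F)) ↔
      LinearIndependent F (fun i => w i - (w i) x • v) := by
  have hv0 : v ≠ 0 := by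
    intro h; rw [h] at hv; simp at hv
  constructor
  · intro h
    rw [Fintype.linearIndependent_iff] at h ⊢
    intro g hg i
    have h2 := h (Fin.cons (-(∑ j, g j * w j x)) g) (by
      rw [Fin.sum_univ_succ]
      simp only [Fin.cons_zero, Fin.cons_succ]
      have : ∑ j, g j • (w j - (w j) x • v) = ∑ j, g j • w j - (∑ j, g j * w j x) • v := by
        simp only [smul_sub, Finset.sum_sub_distrib, smul_smul, Finset.sum_smul]
      rw [this] at hg
      rw [neg_smul]
      rw [sub_eq_zero] at hg
      rw [hg]; simp) i.succ
    simpa using h2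
  · intro h
    rw [Fintype.linearIndependent_iff] at h ⊢
    intro g hg
    rw [Fin.sum_univ_succ] at hg
    simp only [Fin.cons_zero, Fin.cons_succ] at hg
    have hx := congrFun hg x
    simp only [Pi.add_apply, Pi.smul_apply, smul_eq_mul, hv, mul_one, Finset.sum_apply,
      Pi.zero_apply] at hx
    have h0 : ∀ i, g (Fin.succ i) = 0 := by
      apply h (fun i => g i.succ)
      have : ∑ j, g (Fin.succ j) • (w j - (w j) x • v)
          = ∑ j, g (Fin.succ j) • w j - (∑ j, g (Fin.succ j) * w j x) • v := by
        simp only [smul_sub, Finset.sum_sub_distrib, smul_smul, Finset.sum_smul]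
      rw [this]
      have h3 : (∑ j, g (Fin.succ j) * w j x) = - g 0 := by linear_combination hx
      rw [h3, neg_smul, sub_neg_eq_add, add_comm]
      exact hg
    intro i
    refine Fin.cases ?_ h0 i
    simp [h0] at hx
    exact hx

variable {F' : Type} [Field F'] (φ' : C →* F'ˣ) (γ' : F'ˣ)

omit [DecidableEq C] in
theorem realize_pivot (e : Sym U C) (he : e.Good s) (he0 : e ≠ .zero) :
    realize F φ γ e (pivot s e) = 1 := by
  cases e with
  | zero => exact absurd rfl he0
  | joint z => simp [realize, pivot]
  | edge x y c t => simp [realize, pivot, he.1]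

/-- independence of a tuple of symbols does not depend on the field -/
theorem realize_indep_iff (hφ : Function.Injective φ) (hγ : ∀ c, φ c ≠ γ)
    (hφ' : Function.Injective φ') (hγ' : ∀ c, φ' c ≠ γ') :
    ∀ (k : ℕ) (f : Fin k → Sym U C), (∀ i, (f i).Good s) →
      (LinearIndependent F (fun i => realize F φ γ (f i)) ↔
        LinearIndependent F' (fun i => realize F' φ' γ' (f i))) := by
  intro k
  induction k with
  | zero =>
    intro f _
    exact ⟨fun _ => linearIndependent_empty_type, fun _ => linearIndependent_empty_type⟩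
  | succ k ih =>
    intro f hf
    by_cases h0 : f 0 = .zero
    · constructor
      · intro h
        exact absurd (by simp [h0, realize]) (h.ne_zero 0)
      · intro h
        exact absurd (by simp [h0, realize]) (h.ne_zero 0)
    · have key : ∀ {K : Type} [Field K] (ψ : C →* Kˣ) (δ : Kˣ) (_ : Function.Injective ψ)
          (_ : ∀ c, ψ c ≠ δ),
          LinearIndependent K (fun i => realize K ψ δ (f i)) ↔
            LinearIndependent K (fun i : Fin k => realize K ψ δ (contr s (f 0) (f i.succ))) := by
        intro K _ ψ δ hψ hδ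
        have h1 : (fun i => realize K ψ δ (f i)) =
            (Fin.cons (realize K ψ δ (f 0)) (fun i : Fin k => realize K ψ δ (f i.succ))
              : Fin (k + 1) → (U → K)) := by
          funext i
          refine Fin.cases ?_ (fun j => ?_) i <;> simp
        rw [h1, linearIndependent_cons_iff (pivot s (f 0)) _
          (realize_pivot s ψ δ (f 0) (hf 0) h0)]
        choose a ha ha' using fun i : Fin k =>
          realize_contr s ψ δ hψ hδ (f 0) (f i.succ) (hf 0) (hf _) h0
        have h2 : (fun i : Fin k => realize K ψ δ (f i.succ) -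
            (realize K ψ δ (f i.succ)) (pivot s (f 0)) • realize K ψ δ (f 0)) =
            (fun i => Units.mk0 (a i) (ha i)) •
              (fun i : Fin k => realize K ψ δ (contr s (f 0) (f i.succ))) := by
          funext i
          rw [ha' i]
          rfl
        rw [h2, LinearIndependent.units_smul_iff]
      rw [key φ γ hφ hγ, key φ' γ' hφ' hγ']
      exact ih _ (fun i => contr_good s _ _ (hf 0) (hf _))

end Symbols


/-! ### The class of matroids, the size function and Dowling geometries -/

/-- `M` is representable over the field `F`. -/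
def Representable (F : Type) [Field F] {α : Type} (M : Matroid α) : Prop :=
  ∃ (W : Type) (_ : AddCommGroup W) (_ : Module F W) (v : α → W),
    ∀ I : Set α, I ⊆ M.E → (M.Indep I ↔ LinearIndepOn F v I)

/-- `M` is simple: it has no loops and no parallel pairs. -/
def IsSimple {α : Type} (M : Matroid α) : Prop :=
  ∀ e ∈ M.E, ∀ f ∈ M.E, M.Indep {e, f}

/-- `M` is a finite simple matroid of rank `n` that is representable over `GF(p)` and `GF(q)`. -/
def InClass (p q n : ℕ) [Fact p.Prime] [Fact q.Prime] {α : Type} (M : Matroid α) : Prop :=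
  M.E.Finite ∧ IsSimple M ∧ M.eRank = n ∧ Representable (ZMod p) M ∧ Representable (ZMod q) M

/-- The size function `h(L(p) ∩ L(q); n)`. -/
noncomputable def sizeFun (p q n : ℕ) [Fact p.Prime] [Fact q.Prime] : ℕ :=
  sSup {k : ℕ | ∃ (α : Type) (M : Matroid α), InClass p q n M ∧ M.E.ncard = k}

/-- The points of the rank `n` Dowling geometry over the cyclic group of `d`-th roots of unity
of the field `F`: `n` joints, and one point for each pair `i < j` and each root of unity. -/
abbrev DowlingPoint (F : Type) [Field F] (n d : ℕ) : Type :=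
  Fin n ⊕ ({ij : Fin n × Fin n // ij.1 < ij.2} × {ω : F // ω ^ d = 1})

/-- The vectors `e_i` and `e_i - ω e_j`. -/
def dowlingVector (F : Type) [Field F] (n d : ℕ) : DowlingPoint F n d → (Fin n → F)
  | .inl i => Pi.single i 1
  | .inr (ij, ω) => Pi.single ij.1.1 1 - ω.1 • Pi.single ij.1.2 1

/-- The Dowling matroid `Q_n(C_d)`, given by its standard representation over `F`. -/
noncomputable def dowling (F : Type) [Field F] [Finite F] (n d : ℕ) :
    Matroid (DowlingPoint F n d) :=
  vectorMatroid F (dowlingVector F n d)

/-- Isomorphism of matroids: a bijection of the ground sets preserving independence. -/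
def MatroidIso {α β : Type} (M : Matroid α) (N : Matroid β) : Prop :=
  ∃ e : M.E ≃ N.E, ∀ I : Set M.E,
    M.Indep (Subtype.val '' I) ↔ N.Indep (Subtype.val '' (e '' I))

/-- Question 2. -/
def Question2 : Prop :=
  ∀ (p q : ℕ) [Fact p.Prime] [Fact q.Prime], p ≠ q →
    ∃ N : ℕ, ∀ n : ℕ, N ≤ n → ∀ (α : Type) (M : Matroid α),
      InClass p q n M → M.E.ncard = sizeFun p q n →
        MatroidIso M (dowling (ZMod p) n (Nat.gcd (p - 1) (q - 1)))

/-! ### Bound -/

theorem ncard_le_of_inClass {p q n : ℕ} [Fact p.Prime] [Fact q.Prime] {α : Type}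
    (M : Matroid α) (h : InClass p q n M) : M.E.ncard ≤ p ^ n := by
  obtain ⟨hfin, hsimple, hrank, ⟨W, _, _, v, hv⟩, -⟩ := h
  obtain ⟨B, hB⟩ := M.exists_isBase
  have hBE : B ⊆ M.E := hB.subset_ground
  have hBfin : B.Finite := hfin.subset hBE
  have hBind : LinearIndepOn (ZMod p) v B := (hv B hBE).1 hB.indep
  have hBcard : B.ncard = n := by
    have := hB.encard_eq_eRank
    rw [hrank, ← hBfin.cast_ncard_eq] at this
    exact_mod_cast this
  -- all vectors lie in the span of the base
  have hspan : ∀ e ∈ M.E, v e ∈ Submodule.span (ZMod p) (v '' B) := by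
    intro e he
    by_cases heB : e ∈ B
    · exact Submodule.subset_span ⟨e, heB, rfl⟩
    · by_contra hn
      have h1 : M.Indep (insert e B) := by
        rw [hv _ (Set.insert_subset he hBE)]
        exact hBind.insert hn
      exact (Matroid.IsBase.insert_dep hB ⟨he, heB⟩).not_indep h1
  have hinj : Set.InjOn v M.E := by
    intro e he f hf hef
    by_contra hne
    have h1 : LinearIndepOn (ZMod p) v {e, f} :=
      (hv _ (by intro x hx; rcases hx with rfl | rfl <;> assumption)).1 (hsimple e he f hf)
    have h2 := h1.injOn (Set.mem_insert e _) (Set.mem_insert_of_mem _ rfl) hef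
    exact hne h2
  set S := Submodule.span (ZMod p) (v '' B) with hS
  have hBim : (v '' B).Finite := hBfin.image v
  have hfd : FiniteDimensional (ZMod p) S := FiniteDimensional.span_of_finite _ hBim
  have hfr : Module.finrank (ZMod p) S = n := by
    have : Fintype B := hBfin.fintype
    have h := finrank_span_eq_card (R := ZMod p) (b := fun x : B => v x) hBind
    rw [← Nat.card_eq_fintype_card, Nat.card_coe_set_eq, hBcard] at h
    rw [← h, hS, Set.image_eq_range]
  have hfinS : Finite S := Module.finite_of_finite (ZMod p)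
  have hcardS : Nat.card S = p ^ n := by
    rw [Module.natCard_eq_pow_finrank (K := ZMod p), hfr, Nat.card_zmod]
  calc M.E.ncard = (v '' M.E).ncard := hinj.ncard_image.symm
    _ ≤ (S : Set W).ncard := by
        apply Set.ncard_le_ncard
        · rintro _ ⟨e, he, rfl⟩; exact hspan e he
        · exact Set.toFinite _
    _ = p ^ n := by rw [← hcardS]; rfl

/-! ### The larger matroid -/

section Construction

variable {n : ℕ} {C : Type} [CommGroup C] [DecidableEq C]

/-- ordered pairs -/
abbrev Pairs (n : ℕ) : Type := {ij : Fin n × Fin n // ij.1 < ij.2}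

/-- labels of the points of the new matroid; `s` is the last vertex -/
abbrev Label (n : ℕ) (C : Type) (s : Fin n) : Type :=
  (Fin n ⊕ (Pairs n × C)) ⊕ ({i : Fin n // i ≠ s} × C)

/-- symbol of a label -/
def toSym (s : Fin n) : Label n C s → Sym (Fin n) C
  | .inl (.inl i) => .joint i
  | .inl (.inr (ij, c)) => .edge ij.1.1 ij.1.2 c false
  | .inr (i, c) => .edge i.1 s c true

omit [DecidableEq C] [CommGroup C] in
theorem toSym_good (s : Fin n) (hs : ∀ i, i ≤ s) (l : Label n C s) : (toSym s l).Good s := by
  rcases l with (i | ⟨⟨⟨i, j⟩, hij⟩, c⟩) | ⟨⟨i, hi⟩, c⟩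
  · trivial
  · refine ⟨ne_of_lt hij, ?_, fun h => by simp at h⟩
    intro h
    exact absurd (lt_of_lt_of_le hij (hs j)) (by rw [← h]; exact lt_irrefl _)
  · exact ⟨hi, hi, fun _ => rfl⟩

theorem contr_toSym_ne_zero (s : Fin n) (hs : ∀ i, i ≤ s) (l l' : Label n C s) (hne : l ≠ l') :
    contr s (toSym s l) (toSym s l') ≠ .zero := by
  rcases l with (i | ⟨⟨⟨i, j⟩, hij⟩, c⟩) | ⟨⟨i, hi⟩, c⟩ <;>
  rcases l' with (i' | ⟨⟨⟨i', j'⟩, hij'⟩, c'⟩) | ⟨⟨i', hi'⟩, c'⟩
  · have : i' ≠ i := fun h => hne (by rw [h])
    simp [toSym, contr, this]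
  · simp only [toSym, contr]
    split_ifs <;> simp
  · simp only [toSym, contr]
    split_ifs <;> simp
  · simp only [toSym, contr]
    split_ifs <;> simp
  · simp only [toSym, contr]
    simp only at hij hij'
    split_ifs with h1 h2 h3 h4 h5 h6 h7
    · exfalso
      apply hne
      subst h1; subst h2
      obtain ⟨rfl, -⟩ := h3
      rfl
    all_goals (try simp)
    subst h5; subst h6
    exact absurd hij (not_lt.2 hij'.le)
  · simp only [toSym, contr]
    split_ifs with h1 h2 h3 h4 h5 h6 h7
    all_goals (try simp)
    · exact absurd h3.2 (by simp)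
    · exact absurd (lt_of_lt_of_le hij (hs j)) (by rw [h4]; exact lt_irrefl _)
  · simp only [toSym, contr]
    split_ifs <;> simp
  · simp only [toSym, contr]
    simp only at hij'
    split_ifs with h1 h2 h3 h4 h5 h6 h7
    all_goals (try simp)
    · exact absurd h3.2 (by simp)
    · exact absurd (hs j') (not_le.2 (by rw [h5]; exact hij'))
  · simp only [toSym, contr]
    split_ifs with h1 h2 h3 h4 h5 h6 h7
    all_goals (try simp)
    · exfalso
      apply hne
      subst h1
      obtain ⟨rfl, -⟩ := h2
      rfl
    · exact hi h3.symm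

variable (F : Type) [Field F] (φ : C →* Fˣ) (γ : Fˣ)

/-- the vectors of the new matroid -/
noncomputable def newVector (s : Fin n) : Label n C s → (Fin n → F) :=
  fun l => realize F φ γ (toSym s l)

variable {F}

theorem newVector_pair (s : Fin n) (hs : ∀ i, i ≤ s) (hφ : Function.Injective φ)
    (hγ : ∀ c, φ c ≠ γ) (l l' : Label n C s) :
    LinearIndepOn F (newVector F φ γ s) {l, l'} := by
  have hgood := toSym_good (C := C) s hs
  have hne0 : ∀ l : Label n C s, toSym s l ≠ Sym.zero := by
    rintro ((i | ⟨⟨⟨i, j⟩, hij⟩, c⟩) | ⟨⟨i, hi⟩, c⟩) <;> simp [toSym]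
  have hreal0 : ∀ e : Sym (Fin n) C, e.Good s → e ≠ .zero → realize F φ γ e ≠ 0 := by
    intro e he he0 h
    have := realize_pivot s φ γ e he he0
    rw [h] at this
    simp at this
  by_cases hll : l = l'
  · subst hll
    simp only [Set.pair_eq_singleton]
    rw [linearIndepOn_singleton_iff]
    exact hreal0 _ (hgood l) (hne0 l)
  · rw [LinearIndepOn.pair_iff _ hll]
    intro a b hab
    obtain ⟨r, hr, hr'⟩ := realize_contr s φ γ hφ hγ (toSym s l) (toSym s l') (hgood l) (hgood l')
      (hne0 l)
    have hz := hreal0 _ (contr_good s _ _ (hgood l) (hgood l')) (contr_toSym_ne_zero s hs l l' hll)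
    have hp := realize_pivot s φ γ (toSym s l) (hgood l) (hne0 l)
    have h1 := congrFun hab (pivot s (toSym s l))
    simp only [newVector, Pi.add_apply, Pi.smul_apply, smul_eq_mul, hp, mul_one,
      Pi.zero_apply] at h1
    have hb : b = 0 := by
      by_contra hb
      have h2 : b • (realize F φ γ (toSym s l') -
          realize F φ γ (toSym s l') (pivot s (toSym s l)) • realize F φ γ (toSym s l)) = 0 := by
        have h3 : a = -(b * realize F φ γ (toSym s l') (pivot s (toSym s l))) := by
          linear_combination h1
        have h4 : a • realize F φ γ (toSym s l) + b • realize F φ γ (toSym s l') = 0 := hab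
        rw [h3] at h4
        rw [← h4]
        module
      rw [hr'] at h2
      rcases smul_eq_zero.1 h2 with h | h
      · exact hb h
      · rcases smul_eq_zero.1 h with h | h
        · exact hr h
        · exact hz h
    refine ⟨?_, hb⟩
    rw [hb] at h1
    simpa using h1

variable {F' : Type} [Field F'] (φ' : C →* F'ˣ) (γ' : F'ˣ)

theorem newVector_indep_iff [Finite C] (s : Fin n) (hs : ∀ i, i ≤ s) (hφ : Function.Injective φ)
    (hγ : ∀ c, φ c ≠ γ) (hφ' : Function.Injective φ') (hγ' : ∀ c, φ' c ≠ γ')
    (I : Set (Label n C s)) :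
    LinearIndepOn F (newVector F φ γ s) I ↔ LinearIndepOn F' (newVector F' φ' γ' s) I := by
  have : Finite I := Set.toFinite I
  obtain ⟨k, ⟨e⟩⟩ := Finite.exists_equiv_fin I
  unfold LinearIndepOn
  rw [← linearIndependent_equiv e.symm, ← linearIndependent_equiv e.symm]
  exact realize_indep_iff s φ γ φ' γ' hφ hγ hφ' hγ' k
    (fun i => toSym s (e.symm i).1) (fun i => toSym_good s hs _)

omit [DecidableEq C] in
theorem newMatroid_eRank [Finite C] (s : Fin n) :
    (vectorMatroid F (newVector F φ γ s)).eRank = n := by
  apply le_antisymm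
  · obtain ⟨B, hB⟩ := (vectorMatroid F (newVector F φ γ s)).exists_isBase
    rw [← Matroid.IsBase.encard_eq_eRank hB]
    have h1 : LinearIndepOn F (newVector F φ γ s) B :=
      (vectorMatroid_indep F _ B).1 (Matroid.IsBase.indep hB)
    have h2 := h1.encard_le_toENat_rank
    simpa using h2
  · have h1 : LinearIndepOn F (newVector F φ γ s) (Set.range (fun i : Fin n =>
        (Sum.inl (Sum.inl i) : Label n C s))) := by
      rw [linearIndepOn_range_iff (by intro a b h; simpa using h)]
      have h0 := (Pi.basisFun F (Fin n)).linearIndependent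
      have h00 : (newVector F φ γ s ∘ fun i : Fin n => (Sum.inl (Sum.inl i) : Label n C s))
          = ⇑(Pi.basisFun F (Fin n)) := by
        funext i
        simp [newVector, toSym, realize]
      rw [h00]
      exact h0
    have h2 := ((vectorMatroid_indep F _ _).2 h1).encard_le_eRank
    refine le_trans ?_ h2
    rw [← Set.image_univ, Function.Injective.encard_image (by intro a b h; simpa using h)]
    simp

end Construction

/-! ### Counting and cyclic groups -/

theorem card_pairs (n : ℕ) : Fintype.card (Pairs n) = n.choose 2 := by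
  rw [Fintype.card_subtype, Finset.card_filter, ← Finset.univ_product_univ,
    Finset.sum_product_right]
  simp only
  have h : ∀ j : Fin n, (∑ i : Fin n, if i < j then 1 else 0) = (j : ℕ) := by
    intro j
    rw [← Finset.card_filter]
    have h2 : (Finset.univ.filter (fun i : Fin n => i < j)) = Finset.Iio j := by
      ext i; simp
    rw [h2, Fin.card_Iio]
  simp_rw [h]
  rw [Fin.sum_univ_eq_sum_range (fun i => i), Finset.sum_range_id, Nat.choose_two_right]

theorem card_roots_le (F : Type) [Field F] (d : ℕ) (hd : 0 < d) :
    Nat.card {ω : F // ω ^ d = 1} ≤ d := by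
  classical
  have h1 : Nat.card {ω : F // ω ^ d = 1} = (Polynomial.nthRootsFinset d (1 : F)).card := by
    rw [Nat.card_congr (Equiv.subtypeEquivRight
      (fun ω => (Polynomial.mem_nthRootsFinset hd (1 : F) (x := ω)).symm))]
    simp
  rw [h1]
  have h2 : (Polynomial.nthRootsFinset d (1 : F)).card ≤ (Polynomial.nthRoots d (1 : F)).card := by
    unfold Polynomial.nthRootsFinset
    convert Multiset.toFinset_card_le (Polynomial.nthRoots d (1 : F))
  exact h2.trans (Polynomial.card_nthRoots d 1)

/-- two primes give a common cyclic group of order `g = gcd(p-1,q-1)` inside the unit groups -/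
theorem exists_common (p q g : ℕ) [Fact p.Prime] [Fact q.Prime] (hg : g = Nat.gcd (p - 1) (q - 1))
    (hp : g < p - 1) (hq : g < q - 1) :
    ∃ (C : Type) (_ : CommGroup C) (_ : Finite C) (φ : C →* (ZMod p)ˣ) (φ' : C →* (ZMod q)ˣ)
      (γ : (ZMod p)ˣ) (γ' : (ZMod q)ˣ), Nat.card C = g ∧ Function.Injective φ ∧
      Function.Injective φ' ∧ (∀ c, φ c ≠ γ) ∧ (∀ c, φ' c ≠ γ') := by
  have hcard : ∀ r : ℕ, ∀ [Fact r.Prime], Nat.card (ZMod r)ˣ = r - 1 := by
    intro r _
    rw [Nat.card_eq_fintype_card, ZMod.card_units]
  have hex : ∀ r : ℕ, ∀ [Fact r.Prime], g ∣ r - 1 → g < r - 1 →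
      ∃ a : (ZMod r)ˣ, orderOf a = g ∧ ∃ γ : (ZMod r)ˣ, γ ∉ Subgroup.zpowers a := by
    intro r _ hd hlt
    obtain ⟨u, hu⟩ := IsCyclic.exists_ofOrder_eq_natCard (α := (ZMod r)ˣ)
    rw [hcard r] at hu
    obtain ⟨m, hm⟩ := hd
    have hr1 : 0 < r - 1 := lt_of_le_of_lt (Nat.zero_le _) hlt
    have hm0 : m ≠ 0 := by rintro rfl; simp at hm; omega
    refine ⟨u ^ m, ?_, ?_⟩
    · rw [orderOf_pow_of_dvd hm0 (by rw [hu, hm]; exact dvd_mul_left _ _), hu, hm,
        Nat.mul_div_cancel _ (Nat.pos_of_ne_zero hm0)]
    · by_contra hcon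
      push Not at hcon
      have h1 : orderOf (u ^ m) = g := by
        rw [orderOf_pow_of_dvd hm0 (by rw [hu, hm]; exact dvd_mul_left _ _), hu, hm,
          Nat.mul_div_cancel _ (Nat.pos_of_ne_zero hm0)]
      have h2 : (Subgroup.zpowers (u ^ m)) = ⊤ := by
        rw [Subgroup.eq_top_iff']; exact hcon
      have h3 := Nat.card_zpowers (u ^ m)
      rw [h2, h1, Subgroup.card_top, hcard r] at h3
      omega
  obtain ⟨a, ha, γ, hγ⟩ := hex p (hg ▸ Nat.gcd_dvd_left _ _) hp
  obtain ⟨b, hb, γ', hγ'⟩ := hex q (hg ▸ Nat.gcd_dvd_right _ _) hq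
  have hiso : Nat.card (Subgroup.zpowers a) = Nat.card (Subgroup.zpowers b) := by
    rw [Nat.card_zpowers, Nat.card_zpowers, ha, hb]
  let e : Subgroup.zpowers a ≃* Subgroup.zpowers b := mulEquivOfCyclicCardEq hiso
  refine ⟨Subgroup.zpowers a, inferInstance, inferInstance, (Subgroup.zpowers a).subtype,
    (Subgroup.zpowers b).subtype.comp e.toMonoidHom, γ, γ', ?_, ?_, ?_, ?_, ?_⟩
  · rw [Nat.card_zpowers, ha]
  · exact Subgroup.subtype_injective _
  · exact (Subgroup.subtype_injective _).comp e.injective
  · intro c h; exact hγ (h ▸ c.2)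
  · intro c h
    apply hγ'
    rw [← h]
    exact (e c).2

/-- the new matroid has more points than the Dowling geometry -/
theorem exists_large (p q n : ℕ) [Fact p.Prime] [Fact q.Prime]
    (hp : ¬ (p - 1 ∣ q - 1)) (hq : ¬ (q - 1 ∣ p - 1)) (hn : 1 ≤ n) :
    ∃ (α : Type) (M : Matroid α), InClass p q n M ∧
      M.E.ncard = Nat.gcd (p - 1) (q - 1) * n.choose 2 + n
        + Nat.gcd (p - 1) (q - 1) * (n - 1) := by
  classical
  set g := Nat.gcd (p - 1) (q - 1) with hg
  have hp2 : 2 ≤ p := (Fact.out : p.Prime).two_le
  have hq2 : 2 ≤ q := (Fact.out : q.Prime).two_le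
  have hgp : g < p - 1 := by
    refine lt_of_le_of_ne (Nat.le_of_dvd (by omega) (Nat.gcd_dvd_left _ _)) ?_
    intro h; exact hp (h ▸ Nat.gcd_dvd_right _ _)
  have hgq : g < q - 1 := by
    refine lt_of_le_of_ne (Nat.le_of_dvd (by omega) (Nat.gcd_dvd_right _ _)) ?_
    intro h; exact hq (h ▸ Nat.gcd_dvd_left _ _)
  obtain ⟨C, _, _, φ, φ', γ, γ', hC, hφ, hφ', hγ, hγ'⟩ := exists_common p q g hg hgp hgq
  obtain ⟨m, rfl⟩ : ∃ m, n = m + 1 := ⟨n - 1, by omega⟩
  let s : Fin (m + 1) := Fin.last m
  have hs : ∀ i : Fin (m + 1), i ≤ s := fun i => Fin.le_last i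
  refine ⟨Label (m + 1) C s, vectorMatroid (ZMod p) (newVector (ZMod p) φ γ s), ⟨?_, ?_, ?_, ?_, ?_⟩, ?_⟩
  · rw [vectorMatroid_ground]; exact Set.finite_univ
  · intro e _ f _
    rw [vectorMatroid_indep]
    exact newVector_pair φ γ s hs hφ hγ e f
  · exact newMatroid_eRank φ γ s
  · exact ⟨_, inferInstance, inferInstance, newVector (ZMod p) φ γ s,
      fun I _ => vectorMatroid_indep _ _ I⟩
  · exact ⟨_, inferInstance, inferInstance, newVector (ZMod q) φ' γ' s,
      fun I _ => (vectorMatroid_indep _ _ I).trans
        (newVector_indep_iff φ γ φ' γ' s hs hφ hγ hφ' hγ' I)⟩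
  · rw [vectorMatroid_ground, Set.ncard_univ, Nat.card_sum, Nat.card_sum, Nat.card_prod,
      Nat.card_prod, hC, Nat.card_eq_fintype_card (α := Pairs (m + 1)), card_pairs,
      Nat.card_eq_fintype_card (α := Fin (m + 1)), Fintype.card_fin,
      Nat.card_eq_fintype_card (α := {i : Fin (m + 1) // i ≠ s})]
    have : Fintype.card {i : Fin (m + 1) // i ≠ s} = m := by
      simp [Fintype.card_subtype_compl]
    rw [this]
    simp only [Nat.add_sub_cancel]
    ring

theorem card_dowling_le (F : Type) [Field F] [Finite F] (n d : ℕ) (hd : 0 < d) :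
    (dowling F n d).E.ncard ≤ d * n.choose 2 + n := by
  rw [dowling, vectorMatroid_ground, Set.ncard_univ, Nat.card_sum, Nat.card_prod,
    Nat.card_eq_fintype_card (α := Pairs n), card_pairs,
    Nat.card_eq_fintype_card (α := Fin n), Fintype.card_fin]
  have := card_roots_le F d hd
  nlinarith [Nat.zero_le (n.choose 2)]

theorem sizeSet_bddAbove (p q n : ℕ) [Fact p.Prime] [Fact q.Prime] :
    BddAbove {k : ℕ | ∃ (α : Type) (M : Matroid α), InClass p q n M ∧ M.E.ncard = k} := by
  refine ⟨p ^ n, ?_⟩
  rintro k ⟨α, M, hM, rfl⟩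
  exact ncard_le_of_inClass M hM

theorem general (p q : ℕ) [Fact p.Prime] [Fact q.Prime]
    (hp : ¬ (p - 1 ∣ q - 1)) (hq : ¬ (q - 1 ∣ p - 1)) (n : ℕ) (hn : 2 ≤ n) :
    (∃ (α : Type) (M : Matroid α), InClass p q n M ∧ M.E.ncard = sizeFun p q n) ∧
    (Nat.gcd (p - 1) (q - 1) * n.choose 2 + n + Nat.gcd (p - 1) (q - 1) * (n - 1)
      ≤ sizeFun p q n) ∧
    ∀ (α : Type) (M : Matroid α), InClass p q n M → M.E.ncard = sizeFun p q n →
      ¬ MatroidIso M (dowling (ZMod p) n (Nat.gcd (p - 1) (q - 1))) := by
  have hex := exists_large p q n hp hq (by omega)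
  have hne : {k : ℕ | ∃ (α : Type) (M : Matroid α), InClass p q n M ∧ M.E.ncard = k}.Nonempty := by
    obtain ⟨α, M, hM, h⟩ := hex
    exact ⟨_, α, M, hM, rfl⟩
  have hmem := Nat.sSup_mem hne (sizeSet_bddAbove p q n)
  have hle : Nat.gcd (p - 1) (q - 1) * n.choose 2 + n + Nat.gcd (p - 1) (q - 1) * (n - 1)
      ≤ sizeFun p q n := by
    obtain ⟨α, M, hM, h⟩ := hex
    rw [← h]
    exact le_csSup (sizeSet_bddAbove p q n) ⟨α, M, hM, rfl⟩
  refine ⟨hmem, hle, ?_⟩
  rintro α M hM hcard ⟨e, -⟩
  have hp2 : 2 ≤ p := (Fact.out : p.Prime).two_le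
  have hg : 0 < Nat.gcd (p - 1) (q - 1) := Nat.gcd_pos_of_pos_left _ (by omega)
  have h1 := card_dowling_le (ZMod p) n _ hg
  have h2 : M.E.ncard = (dowling (ZMod p) n (Nat.gcd (p - 1) (q - 1))).E.ncard := by
    rw [← Nat.card_coe_set_eq, ← Nat.card_coe_set_eq]
    exact Nat.card_congr e
  have h3 : 0 < Nat.gcd (p - 1) (q - 1) * (n - 1) := Nat.mul_pos hg (by omega)
  omega

/-- Question 2 is false. In fact for every pair of primes `p, q` such that neither of `p - 1`,
`q - 1` divides the other, and for every `n ≥ 2`, no simple rank `n` matroid of maximum size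
representable over both fields is a Dowling geometry over the cyclic group of order
`g = gcd(p - 1, q - 1)`, because `h(n) ≥ g * choose n 2 + n + g * (n - 1)`. -/
theorem result :
    ¬ Question2 ∧
    ∀ (p q : ℕ) [Fact p.Prime] [Fact q.Prime],
      ¬ (p - 1 ∣ q - 1) → ¬ (q - 1 ∣ p - 1) → ∀ n : ℕ, 2 ≤ n →
        (∃ (α : Type) (M : Matroid α), InClass p q n M ∧ M.E.ncard = sizeFun p q n) ∧
        (Nat.gcd (p - 1) (q - 1) * n.choose 2 + n + Nat.gcd (p - 1) (q - 1) * (n - 1)
          ≤ sizeFun p q n) ∧
        ∀ (α : Type) (M : Matroid α), InClass p q n M → M.E.ncard = sizeFun p q n →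
          ¬ MatroidIso M (dowling (ZMod p) n (Nat.gcd (p - 1) (q - 1))) := by
  refine ⟨?_, fun p q _ _ hp hq n hn => general p q hp hq n hn⟩
  intro h
  have : Fact (Nat.Prime 5) := ⟨by norm_num⟩
  have : Fact (Nat.Prime 7) := ⟨by norm_num⟩
  obtain ⟨N, hN⟩ := h 5 7 (by norm_num)
  obtain ⟨⟨α, M, hM, hcard⟩, -, hno⟩ := general 5 7 (by norm_num) (by norm_num) (N + 2) (by omega)
  exact hno α M hM hcard (hN (N + 2) (by omega) α M hM hcard)

end Pool.Agent.Results.MP_f51a11_co.ProjectedDowling
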